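import Pool.Agent.Y6.G.Stm

/-!
# Project EP: sums of frequencies of the chain, first part (adaptation of Y932/EF/Sumsa.lean)
-/

set_option autoImplicit false

open Finset

namespace Pool.Agent.Y756.EP.Sumsa

open Pool.Agent.Y6.G
open Pool.Agent.Y6.M (Z3 Md br nsq)

theorem al_ge (n : ℕ) : 20 ≤ al n := by
  induction n with
  | zero =>
    have h : al 0 = 10 ^ 100 := rfl
    rw [h]
    calc 20 ≤ 10 ^ 2 := by norm_num
      _ ≤ 10 ^ 100 := Nat.pow_le_pow_right (by norm_num) (by norm_num)
  | succ n ih =>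
    have h : al (n + 1) = al n ^ 61 := rfl
    rw [h]
    calc 20 ≤ al n := ih
      _ = al n ^ 1 := (pow_one _).symm
      _ ≤ al n ^ 61 := Nat.pow_le_pow_right (by omega) (by norm_num)

theorem al_step (n : ℕ) : 20 * al n ≤ al (n + 1) := by
  have h : al (n + 1) = al n ^ 61 := rfl
  rw [h]
  calc 20 * al n ≤ al n * al n := Nat.mul_le_mul_right _ (al_ge n)
    _ = al n ^ 2 := (sq _).symm
    _ ≤ al n ^ 61 := Nat.pow_le_pow_right (by have := al_ge n; omega) (by norm_num)

theorem al_sum (L : ℕ) : 9 * ∑ n ∈ range L, al n + L + 1 ≤ al L := by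
  induction L with
  | zero => have := al_ge 0; simp; omega
  | succ L ih =>
    rw [Finset.sum_range_succ]
    have h1 := al_step L
    have h2 := al_ge L
    omega

/-- combinations of the frequencies of the chain -/
noncomputable def lc : (ℕ →₀ ℤ) →ₗ[ℤ] Z3 := Finsupp.linearCombination ℤ kx

/-- the sum of the coefficients -/
noncomputable def ag : (ℕ →₀ ℤ) →ₗ[ℤ] ℤ := Finsupp.linearCombination ℤ (fun _ => (1 : ℤ))

theorem lc_single (n : ℕ) : lc (Finsupp.single n 1) = kx n := by
  simp [lc]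

theorem ag_single (n : ℕ) : ag (Finsupp.single n 1) = 1 := by
  simp [ag]

theorem lc_apply (c : ℕ →₀ ℤ) (j : Fin 3) : lc c j = ∑ n ∈ c.support, c n * kx n j := by
  simp [lc, Finsupp.linearCombination_apply, Finsupp.sum, Finset.sum_apply]

theorem kx_abs (n : ℕ) (j : Fin 3) : |kx n j| ≤ (al n : ℤ) := by
  unfold kx
  split_ifs
  · simp
  · simp

theorem lemB (c : ℕ →₀ ℤ) (hc : ∀ n, |c n| ≤ 9) (L : ℕ) (hL : c L ≠ 0) :
    (L : ℤ) < nsq (lc c) := by
  have hne : c.support.Nonempty := ⟨L, Finsupp.mem_support_iff.2 hL⟩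
  set M := c.support.max' hne with hM
  have hLM : L ≤ M := Finset.le_max' _ _ (Finsupp.mem_support_iff.2 hL)
  have hMs : M ∈ c.support := Finset.max'_mem _ _
  have hcM : c M ≠ 0 := Finsupp.mem_support_iff.1 hMs
  set j : Fin 3 := ⟨M % 3, Nat.mod_lt _ (by norm_num)⟩ with hj
  have h1 : lc c j = ∑ n ∈ c.support.erase M, c n * kx n j + c M * (al M : ℤ) := by
    rw [lc_apply, ← Finset.sum_erase_add _ _ hMs]
    congr 2
    exact if_pos rfl
  have h2 : |∑ n ∈ c.support.erase M, c n * kx n j| ≤ 9 * ∑ n ∈ range M, (al n : ℤ) := by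
    refine (Finset.abs_sum_le_sum_abs _ _).trans ?_
    have h3 : ∑ n ∈ c.support.erase M, |c n * kx n j| ≤ ∑ n ∈ c.support.erase M, 9 * (al n : ℤ) := by
      refine Finset.sum_le_sum fun n _ => ?_
      rw [abs_mul]
      exact mul_le_mul (hc n) (kx_abs n j) (abs_nonneg _) (by norm_num)
    refine h3.trans ?_
    rw [← Finset.mul_sum]
    refine mul_le_mul_of_nonneg_left ?_ (by norm_num)
    refine Finset.sum_le_sum_of_subset_of_nonneg ?_ fun _ _ _ => by positivity
    intro n hn
    rw [Finset.mem_erase] at hn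
    rw [Finset.mem_range]
    exact lt_of_le_of_ne (Finset.le_max' _ _ hn.2) hn.1
  have h4 : (9 : ℤ) * ∑ n ∈ range M, (al n : ℤ) + M + 1 ≤ al M := by
    have := al_sum M
    exact_mod_cast this
  have h5 : (al M : ℤ) ≤ |c M * (al M : ℤ)| := by
    rw [abs_mul]
    have h6 : 1 ≤ |c M| := Int.one_le_abs hcM
    have h7 : |(al M : ℤ)| = al M := abs_of_nonneg (by positivity)
    rw [h7]
    have h8 : (0 : ℤ) ≤ al M := by positivity
    nlinarith
  have h6 : (M : ℤ) + 1 ≤ |lc c j| := by
    have h7 : |c M * (al M : ℤ)| ≤ |lc c j| + |∑ n ∈ c.support.erase M, c n * kx n j| := by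
      have h8 : c M * (al M : ℤ) = lc c j - ∑ n ∈ c.support.erase M, c n * kx n j := by
        rw [h1]; ring
      rw [h8]
      exact abs_sub _ _
    linarith
  have h7 : (lc c j) ^ 2 ≤ nsq (lc c) := by
    unfold nsq
    exact Finset.single_le_sum (f := fun j => (lc c j) ^ 2) (fun _ _ => sq_nonneg _)
      (Finset.mem_univ j)
  have h8 : |lc c j| ≤ (lc c j) ^ 2 := by
    rw [← sq_abs]
    have h9 : 0 ≤ |lc c j| := abs_nonneg _
    have h10 : (1 : ℤ) ≤ |lc c j| := by
      have : (0 : ℤ) ≤ M := by positivity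
      linarith
    nlinarith
  have h9 : (L : ℤ) ≤ M := by exact_mod_cast hLM
  linarith

/-- bounded coefficients -/
def Bd (k : ℤ) (c : ℕ →₀ ℤ) : Prop := ∀ n, |c n| ≤ k

theorem Bd_single (n : ℕ) : Bd 1 (Finsupp.single n 1) := by
  intro m
  rw [Finsupp.single_apply]
  split_ifs <;> simp

theorem Bd_add {k l : ℤ} {c e : ℕ →₀ ℤ} (h : Bd k c) (h' : Bd l e) : Bd (k + l) (c + e) := by
  intro n
  rw [Finsupp.add_apply]
  exact (abs_add_le _ _).trans (add_le_add (h n) (h' n))

theorem Bd_neg {k : ℤ} {c : ℕ →₀ ℤ} (h : Bd k c) : Bd k (-c) := by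
  intro n
  rw [Finsupp.neg_apply, abs_neg]
  exact h n

theorem Bd_sub {k l : ℤ} {c e : ℕ →₀ ℤ} (h : Bd k c) (h' : Bd l e) : Bd (k + l) (c - e) := by
  rw [sub_eq_add_neg]
  exact Bd_add h (Bd_neg h')

theorem lc_inj {c e : ℕ →₀ ℤ} (h : Bd 4 c) (h' : Bd 4 e) (he : lc c = lc e) :
    c = e := by
  by_contra hne
  have h1 : c - e ≠ 0 := sub_ne_zero.2 hne
  obtain ⟨L, hL⟩ : ∃ L, (c - e) L ≠ 0 := by
    by_contra hcon
    push Not at hcon
    exact h1 (Finsupp.ext hcon)
  have h2 := lemB (c - e) (fun n => (Bd_sub h h' n).trans (by norm_num)) L hL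
  rw [map_sub, he, sub_self] at h2
  have h3 : nsq (0 : Z3) = 0 := by simp [nsq]
  rw [h3] at h2
  have : (0 : ℤ) ≤ L := by positivity
  linarith

/-- `c` is the code of the frequency `k` -/
def Code (k : Z3) (c : ℕ →₀ ℤ) : Prop := k = lc c ∧ Bd 2 c

theorem code_X (p : ℕ) : Code (Xm p).1.1 (Finsupp.single p 1) := by
  refine ⟨?_, fun n => (Bd_single p n).trans (by norm_num)⟩
  rw [lc_single]; rfl

theorem code_Y (p : ℕ) : Code (Ym p).1.1 (Finsupp.single p 1 + Finsupp.single (p + 1) 1) := by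
  refine ⟨?_, Bd_add (Bd_single p) (Bd_single (p + 1))⟩
  rw [map_add, lc_single, lc_single]; rfl

theorem code_br {i : Md} {c : ℕ →₀ ℤ} (h : Code i.1.1 c) : Code (br i).1.1 (-c) := by
  refine ⟨?_, Bd_neg h.2⟩
  rw [map_neg, ← h.1]; rfl

theorem code_add {a b k : Z3} {c e f : ℕ →₀ ℤ} (ha : Code a c) (hb : Code b e)
    (hk : Code k f) (h : a + b = k) : c + e = f := by
  refine lc_inj (Bd_add ha.2 hb.2) (fun n => (hk.2 n).trans (by norm_num)) ?_
  rw [map_add, ← ha.1, ← hb.1, ← hk.1, h]

theorem part1 (n p q : ℕ) (h : (Finsupp.single p 1 + Finsupp.single (p + 1) 1 +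
    -Finsupp.single q 1 : ℕ →₀ ℤ) = Finsupp.single n 1) :
    (n = p ∧ q = n + 1) ∨ (n = p + 1 ∧ q = p) := by
  have h1 := DFunLike.congr_fun h p
  have h2 := DFunLike.congr_fun h (p + 1)
  simp only [Finsupp.add_apply, Finsupp.neg_apply, Finsupp.single_apply] at h1 h2
  split_ifs at h1 h2 <;> omega

theorem part2 (n p q : ℕ) (h : (Finsupp.single p 1 + Finsupp.single q 1 : ℕ →₀ ℤ) =
    Finsupp.single n 1 + Finsupp.single (n + 1) 1) :
    (p = n ∧ q = n + 1) ∨ (q = n ∧ p = n + 1) := by
  have h1 := DFunLike.congr_fun h n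
  have h2 := DFunLike.congr_fun h (n + 1)
  simp only [Finsupp.add_apply, Finsupp.single_apply] at h1 h2
  split_ifs at h1 h2 <;> omega

/-- the codes of the main modes, up to sign -/
def PC (ℓ : ℕ) (u : ℕ →₀ ℤ) : Prop :=
  u = Finsupp.single ℓ 1 ∨ ∃ p, ℓ = p + 1 ∧ u = Finsupp.single p 1 + Finsupp.single (p + 1) 1

theorem witness {ℓ ℓ' : ℕ} {u v : ℕ →₀ ℤ} (hu : PC ℓ u) (hv : PC ℓ' v) (hne : u - v ≠ 0) :
    ∃ L, ℓ ≤ L + 1 ∧ (u - v) L ≠ 0 := by
  by_contra hcon
  push Not at hcon
  rcases hu with rfl | ⟨p, rfl, rfl⟩ <;> rcases hv with rfl | ⟨q, rfl, rfl⟩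
  · have h1 := hcon ℓ (by omega)
    by_cases hll : ℓ' = ℓ
    · subst hll
      exact hne (sub_self _)
    · rw [Finsupp.sub_apply, Finsupp.single_apply, Finsupp.single_apply, if_pos rfl,
        if_neg hll] at h1
      omega
  · have h1 := hcon ℓ (by omega)
    have h2 := hcon (ℓ + 1) (by omega)
    simp only [Finsupp.sub_apply, Finsupp.add_apply, Finsupp.single_apply] at h1 h2
    rcases Nat.lt_trichotomy ℓ (q + 1) with h3 | h3 | h3
    · split_ifs at h1 h2 <;> omega
    · have h4 := hcon q (by omega)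
      simp only [Finsupp.sub_apply, Finsupp.add_apply, Finsupp.single_apply] at h4
      split_ifs at h4 <;> omega
    · split_ifs at h1 h2 <;> omega
  · have h1 := hcon p (by omega)
    have h2 := hcon (p + 1) (by omega)
    simp only [Finsupp.sub_apply, Finsupp.add_apply, Finsupp.single_apply] at h1 h2
    split_ifs at h1 h2 <;> omega
  · have h1 := hcon p (by omega)
    have h2 := hcon (p + 1) (by omega)
    simp only [Finsupp.sub_apply, Finsupp.add_apply, Finsupp.single_apply] at h1 h2
    by_cases hpq : p = q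
    · subst hpq
      exact hne (sub_self _)
    · split_ifs at h1 h2 <;> omega

theorem witness' {ℓ ℓ' : ℕ} {u v : ℕ →₀ ℤ} (hu : PC ℓ u) (hv : PC ℓ' v) :
    ∃ L, ℓ ≤ L + 1 ∧ (u + v) L ≠ 0 := by
  refine ⟨ℓ, by omega, ?_⟩
  rcases hu with rfl | ⟨p, rfl, rfl⟩ <;> rcases hv with rfl | ⟨q, rfl, rfl⟩ <;>
    simp only [Finsupp.add_apply, Finsupp.single_apply] <;> split_ifs <;> omega

/-- the codes of the main modes -/
theorem main_code (hLV : S_LV) (i : Md) (hi : σM i = 0) :
    ∃ u, PC (lvM i) u ∧ (Code i.1.1 u ∨ Code i.1.1 (-u)) := by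
  obtain ⟨h1, h2, h3, -⟩ := hLV
  obtain ⟨n, rfl | rfl | rfl | rfl⟩ := h3 i hi
  · exact ⟨_, Or.inl (by rw [(h1 n).1]), Or.inl (code_X n)⟩
  · exact ⟨_, Or.inl (by rw [(h1 n).2.1]), Or.inr (code_br (code_X n))⟩
  · exact ⟨_, Or.inr ⟨n, (h1 n).2.2.1, rfl⟩, Or.inl (code_Y n)⟩
  · exact ⟨_, Or.inr ⟨n, (h1 n).2.2.2, rfl⟩, Or.inr (code_br (code_Y n))⟩

theorem part4 (hLV : S_LV) (i a : Md) (hi : σM i = 0) (ha : σM a = 0) (hne : i.1.1 ≠ a.1.1) :
    (lvM i : ℤ) ≤ nsq (i.1.1 - a.1.1) + 1 := by
  obtain ⟨u, hu, hu'⟩ := main_code hLV i hi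
  obtain ⟨v, hv, hv'⟩ := main_code hLV a ha
  have key : ∀ c : ℕ →₀ ℤ, Bd 4 c → lc c = i.1.1 - a.1.1 → (∃ L, lvM i ≤ L + 1 ∧ c L ≠ 0) →
      (lvM i : ℤ) ≤ nsq (i.1.1 - a.1.1) + 1 := by
    rintro c hc hlc ⟨L, hL, hL'⟩
    have h1 := lemB c (fun n => (hc n).trans (by norm_num)) L hL'
    rw [hlc] at h1
    have h2 : (lvM i : ℤ) ≤ L + 1 := by exact_mod_cast hL
    omega
  have hnz : ∀ c : ℕ →₀ ℤ, lc c = i.1.1 - a.1.1 → c ≠ 0 := by
    intro c hc h0
    rw [h0, map_zero] at hc
    exact hne (sub_eq_zero.1 hc.symm)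
  rcases hu' with hu' | hu' <;> rcases hv' with hv' | hv'
  · have h1 : lc (u - v) = i.1.1 - a.1.1 := by rw [map_sub, ← hu'.1, ← hv'.1]
    exact key _ (Bd_sub hu'.2 hv'.2) h1 (witness hu hv (hnz _ h1))
  · have h1 : lc (u - (-v)) = i.1.1 - a.1.1 := by rw [map_sub, ← hu'.1, ← hv'.1]
    refine key _ (Bd_sub hu'.2 hv'.2) h1 ?_
    rw [sub_neg_eq_add]
    exact witness' hu hv
  · have h1 : lc (-u - v) = i.1.1 - a.1.1 := by rw [map_sub, ← hu'.1, ← hv'.1]
    refine key _ (Bd_sub hu'.2 hv'.2) h1 ?_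
    obtain ⟨L, hL, hL'⟩ := witness' hu hv
    refine ⟨L, hL, ?_⟩
    have : -u - v = -(u + v) := by abel
    rw [this, Finsupp.neg_apply]
    exact neg_ne_zero.2 hL'
  · have h1 : lc (-u - (-v)) = i.1.1 - a.1.1 := by rw [map_sub, ← hu'.1, ← hv'.1]
    refine key _ (Bd_sub hu'.2 hv'.2) h1 ?_
    have h2 : u - v ≠ 0 := by
      intro h0
      apply hnz _ h1
      have : -u - (-v) = -(u - v) := by abel
      rw [this, h0, neg_zero]
    obtain ⟨L, hL, hL'⟩ := witness hu hv h2
    refine ⟨L, hL, ?_⟩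
    have : -u - (-v) = -(u - v) := by abel
    rw [this, Finsupp.neg_apply]
    exact neg_ne_zero.2 hL'

theorem t_SUMSa : Pool.Agent.Y6.G.S_LV → Pool.Agent.Y6.G.S_SUMSa := by
  intro hLV
  have h3 := hLV.2.2.1
  refine ⟨?_, ?_, part4 hLV⟩
  · intro n a b ha hb h
    have hk : Code (kx n) (Finsupp.single n 1) := code_X n
    obtain ⟨p, rfl | rfl | rfl | rfl⟩ := h3 a ha <;> obtain ⟨q, rfl | rfl | rfl | rfl⟩ := h3 b hb
    · have e := congrArg ag (code_add (code_X p) (code_X q) hk h)
      simp only [map_add, map_neg, ag_single] at e; omega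
    · have e := congrArg ag (code_add (code_X p) (code_br (code_X q)) hk h)
      simp only [map_add, map_neg, ag_single] at e; omega
    · have e := congrArg ag (code_add (code_X p) (code_Y q) hk h)
      simp only [map_add, map_neg, ag_single] at e; omega
    · have e := congrArg ag (code_add (code_X p) (code_br (code_Y q)) hk h)
      simp only [map_add, map_neg, ag_single] at e; omega
    · have e := congrArg ag (code_add (code_br (code_X p)) (code_X q) hk h)
      simp only [map_add, map_neg, ag_single] at e; omega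
    · have e := congrArg ag (code_add (code_br (code_X p)) (code_br (code_X q)) hk h)
      simp only [map_add, map_neg, ag_single] at e; omega
    · have e := code_add (code_br (code_X p)) (code_Y q) hk h
      rw [add_comm] at e
      rcases part1 n q p e with ⟨rfl, rfl⟩ | ⟨rfl, rfl⟩
      · exact Or.inr (Or.inl ⟨rfl, rfl⟩)
      · exact Or.inr (Or.inr ⟨_, rfl, Or.inr ⟨rfl, rfl⟩⟩)
    · have e := congrArg ag (code_add (code_br (code_X p)) (code_br (code_Y q)) hk h)
      simp only [map_add, map_neg, ag_single] at e; omega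
    · have e := congrArg ag (code_add (code_Y p) (code_X q) hk h)
      simp only [map_add, map_neg, ag_single] at e; omega
    · have e := code_add (code_Y p) (code_br (code_X q)) hk h
      rcases part1 n p q e with ⟨rfl, rfl⟩ | ⟨rfl, rfl⟩
      · exact Or.inl ⟨rfl, rfl⟩
      · exact Or.inr (Or.inr ⟨_, rfl, Or.inl ⟨rfl, rfl⟩⟩)
    · have e := congrArg ag (code_add (code_Y p) (code_Y q) hk h)
      simp only [map_add, map_neg, ag_single] at e; omega
    · have e := congrArg ag (code_add (code_Y p) (code_br (code_Y q)) hk h)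
      simp only [map_add, map_neg, ag_single] at e; omega
    · have e := congrArg ag (code_add (code_br (code_Y p)) (code_X q) hk h)
      simp only [map_add, map_neg, ag_single] at e; omega
    · have e := congrArg ag (code_add (code_br (code_Y p)) (code_br (code_X q)) hk h)
      simp only [map_add, map_neg, ag_single] at e; omega
    · have e := congrArg ag (code_add (code_br (code_Y p)) (code_Y q) hk h)
      simp only [map_add, map_neg, ag_single] at e; omega
    · have e := congrArg ag (code_add (code_br (code_Y p)) (code_br (code_Y q)) hk h)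
      simp only [map_add, map_neg, ag_single] at e; omega
  · intro n a b ha hb h
    have hk : Code (kx n + kx (n + 1)) (Finsupp.single n 1 + Finsupp.single (n + 1) 1) :=
      code_Y n
    obtain ⟨p, rfl | rfl | rfl | rfl⟩ := h3 a ha <;> obtain ⟨q, rfl | rfl | rfl | rfl⟩ := h3 b hb
    · rcases part2 n p q (code_add (code_X p) (code_X q) hk h) with ⟨rfl, rfl⟩ | ⟨rfl, rfl⟩
      · exact Or.inl ⟨rfl, rfl⟩
      · exact Or.inr ⟨rfl, rfl⟩
    · have e := congrArg ag (code_add (code_X p) (code_br (code_X q)) hk h)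
      simp only [map_add, map_neg, ag_single] at e; omega
    · have e := congrArg ag (code_add (code_X p) (code_Y q) hk h)
      simp only [map_add, map_neg, ag_single] at e; omega
    · have e := congrArg ag (code_add (code_X p) (code_br (code_Y q)) hk h)
      simp only [map_add, map_neg, ag_single] at e; omega
    · have e := congrArg ag (code_add (code_br (code_X p)) (code_X q) hk h)
      simp only [map_add, map_neg, ag_single] at e; omega
    · have e := congrArg ag (code_add (code_br (code_X p)) (code_br (code_X q)) hk h)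
      simp only [map_add, map_neg, ag_single] at e; omega
    · have e := congrArg ag (code_add (code_br (code_X p)) (code_Y q) hk h)
      simp only [map_add, map_neg, ag_single] at e; omega
    · have e := congrArg ag (code_add (code_br (code_X p)) (code_br (code_Y q)) hk h)
      simp only [map_add, map_neg, ag_single] at e; omega
    · have e := congrArg ag (code_add (code_Y p) (code_X q) hk h)
      simp only [map_add, map_neg, ag_single] at e; omega
    · have e := congrArg ag (code_add (code_Y p) (code_br (code_X q)) hk h)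
      simp only [map_add, map_neg, ag_single] at e; omega
    · have e := congrArg ag (code_add (code_Y p) (code_Y q) hk h)
      simp only [map_add, map_neg, ag_single] at e; omega
    · have e := congrArg ag (code_add (code_Y p) (code_br (code_Y q)) hk h)
      simp only [map_add, map_neg, ag_single] at e; omega
    · have e := congrArg ag (code_add (code_br (code_Y p)) (code_X q) hk h)
      simp only [map_add, map_neg, ag_single] at e; omega
    · have e := congrArg ag (code_add (code_br (code_Y p)) (code_br (code_X q)) hk h)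
      simp only [map_add, map_neg, ag_single] at e; omega
    · have e := congrArg ag (code_add (code_br (code_Y p)) (code_Y q) hk h)
      simp only [map_add, map_neg, ag_single] at e; omega
    · have e := congrArg ag (code_add (code_br (code_Y p)) (code_br (code_Y q)) hk h)
      simp only [map_add, map_neg, ag_single] at e; omega

end Pool.Agent.Y756.EP.Sumsa
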